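import Pool.Agent.H979.DE.Stm

/-!
# The walk moves along edges; the probability to follow a path (project DE)
-/

set_option autoImplicit false
set_option linter.unusedVariables false

open MeasureTheory Finset Filter Pool.Agent.H41.Derrw Pool.Agent.H979.DE
open scoped ENNReal

namespace Pool.Agent.H402

theorem de_val : S_VAL := by
  intro V _ _ _ _ G _ γ v P hP
  have := hP.1
  have h0 : ∀ᵐ w ∂P, w 0 = v := by
    have hm : MeasurableSet {w : ℕ → V | w 0 = v} :=
      measurable_pi_apply (X := fun _ : ℕ => V) 0 (measurableSet_singleton v)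
    exact (mem_ae_iff_prob_eq_one hm).2 hP.2.1
  have h1 : ∀ n : ℕ, ∀ᵐ w ∂P, G.Adj (w n) (w (n + 1)) := by
    intro n
    let e : (Fin (n + 2) → V) → ℕ → V := fun a k => if h : k < n + 2 then a ⟨k, h⟩ else v
    have key : P (⋃ a : Fin (n + 2) → V, {w : ℕ → V | ¬ G.Adj (e a n) (e a (n + 1)) ∧
        ∀ k ≤ n + 1, w k = e a k}) = 0 := by
      refine measure_iUnion_null fun a => ?_
      by_cases ha : G.Adj (e a n) (e a (n + 1))
      · have : {w : ℕ → V | ¬ G.Adj (e a n) (e a (n + 1)) ∧ ∀ k ≤ n + 1, w k = e a k} = ∅ :=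
          Set.eq_empty_iff_forall_notMem.2 fun w hw => hw.1 ha
        rw [this, measure_empty]
      · refine measure_mono_null (t := {w : ℕ → V | ∀ k ≤ n + 1, w k = e a k})
          (fun w hw => hw.2) ?_
        rw [hP.2.2 (e a) n, Pool.Agent.H41.Derrw.trans, if_neg ha, ENNReal.ofReal_zero, mul_zero]
    refine measure_mono_null (fun w hw => ?_) key
    refine Set.mem_iUnion.2 ⟨fun i => w i, ?_⟩
    have ew : ∀ k ≤ n + 1, e (fun i => w i) k = w k := fun k hk => dif_pos (by omega)
    refine ⟨?_, fun k hk => (ew k hk).symm⟩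
    rw [ew n (by omega), ew (n + 1) le_rfl]
    exact hw
  filter_upwards [h0, ae_all_iff.2 h1] with w hw0 hw1
  exact ⟨hw0, fun n k _ => hw1 k⟩

theorem de_follow (h : S_NG) : S_FOLLOW := by
  intro V _ _ _ _ G _ γ v P hP D y n m hD hnm
  induction m, hnm using Nat.le_induction with
  | base =>
    intro _ _
    rw [Nat.sub_self, pow_zero, ENNReal.ofReal_one, one_mul]
  | succ m hnm ih =>
    intro hV hG
    have ih' := ih (fun k hk => hV k (by omega)) (fun j hj hjm => hG j hj (by omega))
    have hadj : G.Adj (y m) (y (m + 1)) := hV m (by omega)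
    have hg := hG m hnm (by omega)
    have ht := (h V G γ y m (fun k hk => hV k (by omega)) hg.1 (y (m + 1)) hadj).1
    have hpos : 0 < G.degree (y m) :=
      (G.degree_pos_iff_exists_adj (y m)).2 ⟨_, hadj⟩
    have hDpos : (0 : ℝ) < D := by exact_mod_cast hD
    have hle : 1 / (D : ℝ) ≤ trans G γ y m (y (m + 1)) := by
      rw [ht]
      exact one_div_le_one_div_of_le (by exact_mod_cast hpos) (by exact_mod_cast hg.2)
    have hstep : P (cyl y (m + 1)) = P (cyl y m) *
        ENNReal.ofReal (trans G γ y m (y (m + 1))) := hP.2.2 y m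
    have hsub : m + 1 - n = (m - n) + 1 := by omega
    rw [hstep, hsub, pow_succ, ENNReal.ofReal_mul (by positivity), mul_right_comm]
    exact mul_le_mul' ih' (ENNReal.ofReal_le_ofReal hle)

end Pool.Agent.H402
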