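import Pool.Agent.H770.GS.UQ

/-!
# Lower bound for the derivative of the rotation (project UQ)
-/

set_option autoImplicit false

open MeasureTheory Set intervalIntegral Filter Topology

namespace Pool.Agent.H402.UQ

open Pool.Agent.Helper82.GC Pool.Agent.H770.GS

theorem W_anti {x r : ℝ} (h0 : 0 ≤ x) (h : x ≤ r) : W r ≤ W x := by
  unfold W
  apply Real.exp_le_exp.2
  nlinarith

/-- the integrand with gain -/
theorem T_gain (h4 : S_four) {ρ ζ : ℝ} {g k rest : ℝ → ℝ} (hζ : 0 < ζ) (hk : P ρ k)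
    (hrest : P ρ rest) (hg : ∀ x, HasDerivAt g (-k x) x) (hev : ∀ x, g (-x) = g x)
    (hk0 : ∀ v, 0 ≤ v → 0 ≤ k v) (heq : ∀ v, ζ * k v = v * g v + rest v) {r A B δ v₂ x : ℝ}
    (hr : 0 < r) (hB : 0 < B) (hBA : B < A) (hρ : ρ ≤ B * r) (hδ : 0 < δ) (hδv : δ ≤ v₂)
    (hv1 : 2 * v₂ ≤ (A ^ 2 - B ^ 2) * r / A) (hv2 : v₂ ≤ B * r)
    (hgv : g v₂ ≤ g δ) (hx1 : B * r - δ / 2 ≤ A * x) (hx2 : A * x ≤ B * r) :
    3 * δ ^ 2 / 8 / ζ * (g δ - g v₂) ≤
      (g (A * r + B * x) - g (-(A * r) + B * x)) - (g (A * x + B * r) - g (A * x - B * r)) := by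
  have hA : 0 < A := hB.trans hBA
  have hx0 : 0 ≤ x := by
    by_contra hcon
    have : A * x < 0 := mul_neg_of_pos_of_neg hA (not_le.1 hcon)
    linarith
  have hBr : 0 < B * r := mul_pos hB hr
  have hxr : x ≤ r := by
    have h1 : A * x ≤ A * r := hx2.trans (mul_le_mul_of_nonneg_right hBA.le hr.le)
    exact le_of_mul_le_mul_left h1 hA
  have hBx : 0 ≤ B * x := mul_nonneg hB.le hx0
  have hBx2 : B * x ≤ B * r := mul_le_mul_of_nonneg_left hxr hB.le
  have hABr : B * r ≤ A * r := mul_le_mul_of_nonneg_right hBA.le hr.le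
  have e1 : g (-(A * r) + B * x) = g (A * r - B * x) := by
    rw [← hev]; ring_nf
  have e2 : g (A * x - B * r) = g (B * r - A * x) := by
    rw [← hev]; ring_nf
  rw [e1, e2]
  -- the four points
  obtain ⟨α, hα⟩ : ∃ α, α = B * r - A * x := ⟨_, rfl⟩
  obtain ⟨β, hβ⟩ : ∃ β, β = A * r + B * x := ⟨_, rfl⟩
  obtain ⟨m1, hm1⟩ : ∃ m1, m1 = A * r - B * x := ⟨_, rfl⟩
  obtain ⟨m2, hm2⟩ : ∃ m2, m2 = A * x + B * r := ⟨_, rfl⟩
  rw [← hα, ← hβ, ← hm1, ← hm2]
  have hα0 : 0 ≤ α := by rw [hα]; linarith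
  have hαδ : α ≤ δ / 2 := by rw [hα]; linarith
  have hm1v : 2 * v₂ ≤ m1 := by
    refine hv1.trans ?_
    rw [div_le_iff₀ hA, hm1]
    have h1 : B * (A * x) ≤ B * (B * r) := mul_le_mul_of_nonneg_left hx2 hB.le
    nlinarith
  have hm2v : v₂ ≤ m2 := by rw [hm2]; linarith
  have hv0 : 0 < v₂ := hδ.trans_le hδv
  have hsum : 2 * ρ ≤ α + β := by
    rw [hα, hβ]
    have h1 : A * x ≤ A * r := mul_le_mul_of_nonneg_left hxr hA.le
    nlinarith
  have hsq : α ^ 2 + β ^ 2 = m1 ^ 2 + m2 ^ 2 := by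
    rw [hα, hβ, hm1, hm2]; ring
  have hβ1 : m1 ≤ β := by rw [hm1, hβ]; linarith
  have hβ2 : m2 ≤ β := by
    rw [hm2, hβ]
    have h1 : 0 ≤ (A - B) * (r - x) := mul_nonneg (by linarith) (by linarith)
    nlinarith
  have main : (δ ^ 2 - α ^ 2) / (2 * ζ) * (g δ - g v₂) ≤ g α + g β - g m1 - g m2 := by
    rcases le_total m1 m2 with h | h
    · exact h4 ρ ζ g k rest hζ hk hrest hg hk0 heq α m1 m2 β δ v₂ hα0 (by linarith) h hβ2 hsq hsum
        (by linarith) hδv (by linarith)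
    · have := h4 ρ ζ g k rest hζ hk hrest hg hk0 heq α m2 m1 β δ v₂ hα0 (by linarith) h hβ1
        (by rw [hsq]; ring) hsum (by linarith) hδv hm2v
      linarith
  have hcoef : 3 * δ ^ 2 / 8 / ζ ≤ (δ ^ 2 - α ^ 2) / (2 * ζ) := by
    rw [div_le_div_iff₀ hζ (by positivity)]
    have h1 : α ^ 2 ≤ (δ / 2) ^ 2 := pow_le_pow_left₀ hα0 hαδ 2
    nlinarith
  have := mul_le_mul_of_nonneg_right hcoef (sub_nonneg.2 hgv)
  linarith

theorem s_JJ : S_JJ := by
  intro h4 ρ ζ g k rest hζ hk hrest hg hev hk0 heq r A B δ v₂ hr hB hBA hρ hδ hδv hv1 hv2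
  have hA : 0 < A := hB.trans hBA
  have hgc : Continuous g := continuous_iff_continuousAt.2 fun x => (hg x).continuousAt
  have hgv : g v₂ ≤ g δ := by
    have h1 : AntitoneOn g (Ici 0) := by
      refine antitoneOn_of_deriv_nonpos (convex_Ici 0) hgc.continuousOn
        (fun x _ => (hg x).differentiableAt.differentiableWithinAt) ?_
      intro x hx
      rw [interior_Ici] at hx
      rw [(hg x).deriv]
      have := hk0 x (le_of_lt hx)
      linarith
    exact h1 (mem_Ici.2 hδ.le) (mem_Ici.2 (hδ.le.trans hδv)) hδv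
  obtain ⟨F, hF⟩ : ∃ F : ℝ → ℝ, F = fun x => x * W x *
      ((g (A * r + B * x) - g (-(A * r) + B * x)) - (g (A * x + B * r) - g (A * x - B * r))) :=
    ⟨_, rfl⟩
  have hFc : Continuous F := by
    rw [hF]
    have := W_cont
    fun_prop
  have hFev : ∀ x, F (-x) = F x := by
    intro x
    rw [hF]
    simp only
    have e1 : g (A * r + B * -x) = g (-(A * r) + B * x) := by
      rw [← hev]; ring_nf
    have e2 : g (-(A * r) + B * -x) = g (A * r + B * x) := by
      rw [← hev]; ring_nf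
    have e3 : g (A * -x + B * r) = g (A * x - B * r) := by
      rw [← hev]; ring_nf
    have e4 : g (A * -x - B * r) = g (A * x + B * r) := by
      rw [← hev]; ring_nf
    rw [e1, e2, e3, e4, W_even]
    ring
  have hF0 : ∀ x, 0 ≤ x → x ≤ r → 0 ≤ F x := by
    intro x h1 h2
    rw [hF]
    exact mul_nonneg (mul_nonneg h1 (W_pos x).le) (T_nonneg hk hg hev hr hB.le hBA.le hρ h1 h2)
  have hJ : JJ r (fun x => -k x) A B = W r * (2 * ∫ x in (0:ℝ)..r, F x) := by
    rw [exch_id hg hk.cont.neg r A B]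
    have h1 : ∫ x in (-r)..r, F x = (∫ x in (-r)..0, F x) + ∫ x in (0:ℝ)..r, F x :=
      (intervalIntegral.integral_add_adjacent_intervals (hFc.intervalIntegrable _ _)
        (hFc.intervalIntegrable _ _)).symm
    have h2 : ∫ x in (0:ℝ)..r, F x = ∫ x in (-r)..0, F x := by
      have h3 := intervalIntegral.integral_comp_neg (a := 0) (b := r) F
      simp only [hFev, neg_zero] at h3
      exact h3
    rw [← h2, ← two_mul] at h1
    rw [← h1, hF]
  -- the small interval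
  obtain ⟨x0, hx0⟩ : ∃ x0, x0 = B * r / A := ⟨_, rfl⟩
  obtain ⟨η, hη⟩ : ∃ η, η = δ / (2 * A) := ⟨_, rfl⟩
  have hBr : 0 < B * r := mul_pos hB hr
  have hAx0 : A * x0 = B * r := by rw [hx0]; field_simp
  have hAη : A * η = δ / 2 := by rw [hη]; field_simp
  have hη0 : 0 < η := by rw [hη]; positivity
  have hx0r : x0 ≤ r := by
    rw [hx0, div_le_iff₀ hA]
    nlinarith
  have hlow : x0 / 2 ≤ x0 - η := by
    have h1 : A * η ≤ A * (x0 / 2) := by linarith
    have h2 := le_of_mul_le_mul_left h1 hA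
    linarith
  have hx0p : 0 < x0 := by rw [hx0]; positivity
  have hint : ∫ x in (x0 - η)..x0, F x ≤ ∫ x in (0:ℝ)..r, F x := by
    refine intervalIntegral.integral_mono_interval (by linarith) (by linarith) hx0r ?_
      (hFc.intervalIntegrable _ _)
    refine (ae_restrict_iff' measurableSet_Ioc).2 (Eventually.of_forall fun x hx => ?_)
    exact hF0 x hx.1.le hx.2
  obtain ⟨G, hG⟩ : ∃ G, G = 3 * δ ^ 2 / 8 / ζ * (g δ - g v₂) := ⟨_, rfl⟩
  have hG0 : 0 ≤ G := by
    rw [hG]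
    exact mul_nonneg (by positivity) (sub_nonneg.2 hgv)
  have hpt : ∀ x ∈ Icc (x0 - η) x0, x0 / 2 * W r * G ≤ F x := by
    intro x hx
    have h1 : x0 / 2 ≤ x := hlow.trans hx.1
    have h2 : W r ≤ W x := W_anti (by linarith) (hx.2.trans hx0r)
    have h3 : G ≤ (g (A * r + B * x) - g (-(A * r) + B * x)) -
        (g (A * x + B * r) - g (A * x - B * r)) := by
      rw [hG]
      refine T_gain h4 hζ hk hrest hg hev hk0 heq hr hB hBA hρ hδ hδv hv1 hv2 hgv ?_ ?_
      · have h5 : A * (x0 - η) ≤ A * x := mul_le_mul_of_nonneg_left hx.1 hA.le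
        rw [mul_sub, hAx0, hAη] at h5
        exact h5
      · have h5 : A * x ≤ A * x0 := mul_le_mul_of_nonneg_left hx.2 hA.le
        rw [hAx0] at h5
        exact h5
    rw [hF]
    refine mul_le_mul (mul_le_mul h1 h2 (W_pos r).le (by linarith)) h3 hG0 ?_
    exact mul_nonneg (by linarith) (W_pos x).le
  have hcst : η * (x0 / 2 * W r * G) ≤ ∫ x in (x0 - η)..x0, F x := by
    have h1 : ∫ _x in (x0 - η)..x0, (x0 / 2 * W r * G) = η * (x0 / 2 * W r * G) := by
      rw [intervalIntegral.integral_const, smul_eq_mul]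
      ring
    rw [← h1]
    exact intervalIntegral.integral_mono_on (by linarith) (intervalIntegrable_const)
      (hFc.intervalIntegrable _ _) hpt
  rw [hJ]
  have hfin : W r * (2 * (η * (x0 / 2 * W r * G))) ≤ W r * (2 * ∫ x in (0:ℝ)..r, F x) :=
    mul_le_mul_of_nonneg_left (by linarith) (W_pos r).le
  refine le_trans (le_of_eq ?_) hfin
  rw [hG, hη, hx0]
  ring

end Pool.Agent.H402.UQ
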